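import Mathlib

/-!
Back-and-forth for two countable families of functions with values in linear orders,
each closed under pasting, dense, unbounded and atomless.
-/

set_option autoImplicit false

namespace Pool.Agent.UniqueAdd

/-- A family `X` of functions `D → Λ` (through `ev`), closed under pasting along the sets
`{a < b}`, dense, unbounded in both directions and atomless. -/
structure Generic {X D Λ : Type} [LinearOrder Λ] (ev : X → D → Λ) : Prop where
  paste : ∀ a b f g : X, ∃ h : X, ∀ t, (ev a t < ev b t → ev h t = ev f t) ∧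
    (¬ ev a t < ev b t → ev h t = ev g t)
  dense : ∀ f g : X, ∃ h : X, ∀ t, ev f t < ev g t → ev f t < ev h t ∧ ev h t < ev g t
  up : ∀ f : X, ∃ h : X, ∀ t, ev f t < ev h t
  down : ∀ f : X, ∃ h : X, ∀ t, ev h t < ev f t
  split : ∀ f g : X, (∃ t, ev f t < ev g t) →
    ∃ a b : X, (∃ t, ev f t < ev g t ∧ ev a t < ev b t) ∧
      (∃ t, ev f t < ev g t ∧ ¬ ev a t < ev b t)
  ne : Nonempty X

section one

variable {X D Λ : Type} [LinearOrder Λ] {ev : X → D → Λ}

/-- Sets of the form `{f < g}`. -/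
def IsDef (ev : X → D → Λ) (U : Set D) : Prop := ∃ f g : X, ∀ t, t ∈ U ↔ ev f t < ev g t

theorem IsDef.compl (hG : Generic ev) {U : Set D} (hU : IsDef ev U) : IsDef ev Uᶜ := by
  obtain ⟨f, g, h⟩ := hU
  obtain ⟨p⟩ := hG.ne
  obtain ⟨q, hq⟩ := hG.up p
  obtain ⟨r, hr⟩ := hG.paste f g p q
  refine ⟨p, r, fun t => ?_⟩
  rw [Set.mem_compl_iff, h t]
  constructor
  · intro ht
    rw [(hr t).2 ht]
    exact hq t
  · intro ht h'
    rw [(hr t).1 h'] at ht
    exact lt_irrefl _ ht

theorem IsDef.inter (hG : Generic ev) {U V : Set D} (hU : IsDef ev U) (hV : IsDef ev V) :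
    IsDef ev (U ∩ V) := by
  obtain ⟨f, g, h⟩ := hU
  obtain ⟨f', g', h'⟩ := hV
  obtain ⟨r, hr⟩ := hG.paste f g g' f'
  refine ⟨f', r, fun t => ?_⟩
  rw [Set.mem_inter_iff, h t, h' t]
  constructor
  · rintro ⟨h1, h2⟩
    rw [(hr t).1 h1]
    exact h2
  · intro h1
    by_cases h2 : ev f t < ev g t
    · rw [(hr t).1 h2] at h1
      exact ⟨h2, h1⟩
    · rw [(hr t).2 h2] at h1
      exact absurd h1 (lt_irrefl _)

theorem IsDef.diff (hG : Generic ev) {U V : Set D} (hU : IsDef ev U) (hV : IsDef ev V) :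
    IsDef ev (U \ V) := by
  rw [Set.sdiff_eq]
  exact hU.inter hG (hV.compl hG)

theorem IsDef.univ (hG : Generic ev) : IsDef ev (Set.univ : Set D) := by
  obtain ⟨p⟩ := hG.ne
  obtain ⟨q, hq⟩ := hG.up p
  exact ⟨p, q, fun t => by simp [hq t]⟩

theorem IsDef.lt (f g : X) : IsDef ev {t | ev f t < ev g t} := ⟨f, g, fun _ => Iff.rfl⟩

theorem IsDef.iff (hG : Generic ev) (P : Prop) (f g : X) :
    IsDef ev {t | P ↔ ev f t < ev g t} := by
  by_cases hP : P
  · simpa [hP] using IsDef.lt (ev := ev) f g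
  · have := (IsDef.lt (ev := ev) f g).compl hG
    have h2 : {t | P ↔ ev f t < ev g t} = {t | ev f t < ev g t}ᶜ := by
      ext t
      simp [hP]
    rw [h2]
    exact this

theorem IsDef.biInter (hG : Generic ev) {ι : Type} (s : Finset ι) (U : ι → Set D)
    (h : ∀ i ∈ s, IsDef ev (U i)) : IsDef ev {t | ∀ i ∈ s, t ∈ U i} := by
  classical
  induction s using Finset.induction_on with
  | empty => simpa using IsDef.univ hG
  | insert i s hi ih =>
    have h1 : {t | ∀ j ∈ insert i s, t ∈ U j} = U i ∩ {t | ∀ j ∈ s, t ∈ U j} := by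
      ext t
      simp
    rw [h1]
    exact (h i (Finset.mem_insert_self _ _)).inter hG
      (ih fun j hj => h j (Finset.mem_insert_of_mem hj))

theorem paste_def (hG : Generic ev) {U : Set D} (hU : IsDef ev U) (f g : X) :
    ∃ h : X, ∀ t, (t ∈ U → ev h t = ev f t) ∧ (t ∉ U → ev h t = ev g t) := by
  obtain ⟨a, b, hab⟩ := hU
  obtain ⟨h, hh⟩ := hG.paste a b f g
  exact ⟨h, fun t => by rw [hab t]; exact hh t⟩

/-- A nonempty definable set contains a nonempty definable set avoiding a given finite set. -/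
theorem avoid (hG : Generic ev) (W : Finset D) {U : Set D} (hU : IsDef ev U)
    (hne : U.Nonempty) : ∃ V : Set D, IsDef ev V ∧ V.Nonempty ∧ V ⊆ U ∧ ∀ w ∈ W, w ∉ V := by
  classical
  induction W using Finset.induction_on with
  | empty => exact ⟨U, hU, hne, subset_rfl, by simp⟩
  | insert w W hw ih =>
    obtain ⟨V, hV, hVne, hVU, hVW⟩ := ih
    obtain ⟨f, g, hfg⟩ := hV
    obtain ⟨t, ht⟩ := hVne
    obtain ⟨a, b, ⟨t1, h1, h1'⟩, ⟨t2, h2, h2'⟩⟩ := hG.split f g ⟨t, (hfg t).1 ht⟩
    by_cases hwab : ev a w < ev b w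
    · refine ⟨V \ {t | ev a t < ev b t}, (IsDef.diff hG ⟨f, g, hfg⟩ (IsDef.lt a b)),
        ⟨t2, (hfg t2).2 h2, h2'⟩, Set.sdiff_subset.trans hVU, ?_⟩
      intro x hx hxV
      rcases Finset.mem_insert.1 hx with rfl | hx
      · exact hxV.2 hwab
      · exact hVW x hx hxV.1
    · refine ⟨V ∩ {t | ev a t < ev b t}, (IsDef.inter hG ⟨f, g, hfg⟩ (IsDef.lt a b)),
        ⟨t1, (hfg t1).2 h1, h1'⟩, Set.inter_subset_left.trans hVU, ?_⟩
      intro x hx hxV
      rcases Finset.mem_insert.1 hx with rfl | hx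
      · exact hwab hxV.2
      · exact hVW x hx hxV.1

end one

section two

variable {X D Λ : Type} [LinearOrder Λ] {ev : X → D → Λ}
variable {Y E M : Type} [LinearOrder M] {ev' : Y → E → M}

/-- The points `t` and `s` induce the same preorder on the pairs of `R`. -/
def Match (ev : X → D → Λ) (ev' : Y → E → M) (R : Set (X × Y)) (t : D) (s : E) : Prop :=
  ∀ p ∈ R, ∀ q ∈ R, (ev p.1 t < ev q.1 t ↔ ev' p.2 s < ev' q.2 s)

/-- The pairs of `R` realise the same preorders on both sides. -/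
def Good (ev : X → D → Λ) (ev' : Y → E → M) (R : Set (X × Y)) : Prop :=
  (∀ t : D, ∃ s : E, Match ev ev' R t s) ∧ (∀ s : E, ∃ t : D, Match ev ev' R t s)

theorem Match.swap {R : Set (X × Y)} {t : D} {s : E} (h : Match ev ev' R t s) :
    Match ev' ev (Prod.swap '' R) s t := by
  rintro _ ⟨p, hp, rfl⟩ _ ⟨q, hq, rfl⟩
  exact (h p hp q hq).symm

theorem Good.swap {R : Set (X × Y)} (h : Good ev ev' R) : Good ev' ev (Prod.swap '' R) :=
  ⟨fun s => (h.2 s).imp fun _ ht => ht.swap, fun t => (h.1 t).imp fun _ hs => hs.swap⟩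

theorem isDef_match (hH : Generic ev') {R : Set (X × Y)} (hR : R.Finite) (t : D) :
    IsDef ev' {s | Match ev ev' R t s} := by
  classical
  have h := IsDef.biInter hH (hR.toFinset ×ˢ hR.toFinset)
    (fun pq : (X × Y) × (X × Y) =>
      {s | ev pq.1.1 t < ev pq.2.1 t ↔ ev' pq.1.2 s < ev' pq.2.2 s})
    (fun pq _ => IsDef.iff hH _ _ _)
  convert h using 1
  ext s
  simp only [Match, Set.mem_ofPred_eq, Finset.mem_product, Set.Finite.mem_toFinset, Prod.forall]
  constructor
  · rintro h a b c d ⟨h1, h2⟩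
    exact h a b h1 c d h2
  · intro h a b h1 c d h2
    exact h a b c d ⟨h1, h2⟩

theorem match_le {R : Set (X × Y)} {t : D} {s : E} (h : Match ev ev' R t s)
    {p q : X × Y} (hp : p ∈ R) (hq : q ∈ R) (hle : ev p.1 t ≤ ev q.1 t) :
    ev' p.2 s ≤ ev' q.2 s := by
  rw [← not_lt] at hle ⊢
  rwa [← h q hq p hp]

theorem match_eq {R : Set (X × Y)} {t : D} {s : E} (h : Match ev ev' R t s)
    {p q : X × Y} (hp : p ∈ R) (hq : q ∈ R) (hle : ev p.1 t = ev q.1 t) :
    ev' p.2 s = ev' q.2 s :=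
  le_antisymm (match_le h hp hq hle.le) (match_le h hq hp hle.ge)

/-- Pointwise extension. -/
theorem exists_point (hH : Generic ev') {R : Set (X × Y)} (hR : R.Finite) (hne : R.Nonempty)
    (x : X) (t : D) :
    ∃ y : Y, ∀ s, Match ev ev' R t s → Match ev ev' (insert (x, y) R) t s := by
  classical
  -- reduce to comparing `y` with the members of `R`
  suffices h : ∃ y : Y, ∀ s, Match ev ev' R t s → ∀ p ∈ R,
      (ev p.1 t < ev x t ↔ ev' p.2 s < ev' y s) ∧ (ev x t < ev p.1 t ↔ ev' y s < ev' p.2 s) by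
    obtain ⟨y, hy⟩ := h
    refine ⟨y, fun s hs => ?_⟩
    intro p hp q hq
    rcases hp with rfl | hp
    · rcases hq with rfl | hq
      · simp
      · exact (hy s hs q hq).2
    · rcases hq with rfl | hq
      · exact (hy s hs p hp).1
      · exact hs p hp q hq
  by_cases h1 : ∃ p ∈ R, ev p.1 t = ev x t
  · obtain ⟨p, hp, hpx⟩ := h1
    refine ⟨p.2, fun s hs q hq => ?_⟩
    rw [← hpx]
    exact ⟨hs q hq p hp, hs p hp q hq⟩
  · push Not at h1
    have hlt : ∀ p ∈ R, ev p.1 t < ev x t ∨ ev x t < ev p.1 t := fun p hp =>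
      lt_or_gt_of_ne (h1 p hp)
    by_cases hL : ∃ p ∈ R, ev p.1 t < ev x t
    · by_cases hU : ∃ p ∈ R, ev x t < ev p.1 t
      · -- both sides
        have hLfin : ({p ∈ R | ev p.1 t < ev x t}).Finite := hR.subset (Set.sep_subset _ _)
        have hUfin : ({p ∈ R | ev x t < ev p.1 t}).Finite := hR.subset (Set.sep_subset _ _)
        obtain ⟨p, ⟨hpR, hpx⟩, hpmax⟩ := Set.exists_max_image _ (fun p : X × Y => ev p.1 t) hLfin
          (by obtain ⟨p, hp, hp'⟩ := hL; exact ⟨p, hp, hp'⟩)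
        obtain ⟨q, ⟨hqR, hqx⟩, hqmin⟩ := Set.exists_min_image _ (fun p : X × Y => ev p.1 t) hUfin
          (by obtain ⟨p, hp, hp'⟩ := hU; exact ⟨p, hp, hp'⟩)
        obtain ⟨y, hy⟩ := hH.dense p.2 q.2
        refine ⟨y, fun s hs r hr => ?_⟩
        have hpq : ev' p.2 s < ev' q.2 s := (hs p hpR q hqR).1 (hpx.trans hqx)
        obtain ⟨hy1, hy2⟩ := hy s hpq
        rcases hlt r hr with hr' | hr'
        · have : ev' r.2 s < ev' y s :=
            (match_le hs hr hpR (hpmax r ⟨hr, hr'⟩)).trans_lt hy1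
          exact ⟨⟨fun _ => this, fun _ => hr'⟩,
            ⟨fun h => absurd h hr'.asymm, fun h => absurd h this.asymm⟩⟩
        · have : ev' y s < ev' r.2 s :=
            hy2.trans_le (match_le hs hqR hr (hqmin r ⟨hr, hr'⟩))
          exact ⟨⟨fun h => absurd h hr'.asymm, fun h => absurd h this.asymm⟩,
            ⟨fun _ => this, fun _ => hr'⟩⟩
      · push Not at hU
        have hlow : ∀ p ∈ R, ev p.1 t < ev x t := fun p hp =>
          lt_of_le_of_ne (hU p hp) (h1 p hp)
        obtain ⟨p, hpR, hpmax⟩ := Set.exists_max_image _ (fun p : X × Y => ev p.1 t) hR hne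
        obtain ⟨y, hy⟩ := hH.up p.2
        refine ⟨y, fun s hs r hr => ?_⟩
        have : ev' r.2 s < ev' y s := (match_le hs hr hpR (hpmax r hr)).trans_lt (hy s)
        have hr' := hlow r hr
        exact ⟨⟨fun _ => this, fun _ => hr'⟩,
            ⟨fun h => absurd h hr'.asymm, fun h => absurd h this.asymm⟩⟩
    · push Not at hL
      have hhigh : ∀ p ∈ R, ev x t < ev p.1 t := fun p hp =>
        lt_of_le_of_ne (hL p hp) (Ne.symm (h1 p hp))
      obtain ⟨p, hpR, hpmin⟩ := Set.exists_min_image _ (fun p : X × Y => ev p.1 t) hR hne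
      obtain ⟨y, hy⟩ := hH.down p.2
      refine ⟨y, fun s hs r hr => ?_⟩
      have : ev' y s < ev' r.2 s := (hy s).trans_le (match_le hs hpR hr (hpmin r hr))
      have hr' := hhigh r hr
      exact ⟨⟨fun h => absurd h hr'.asymm, fun h => absurd h this.asymm⟩,
            ⟨fun _ => this, fun _ => hr'⟩⟩

theorem exists_glue (hH : Generic ev') {R : Set (X × Y)} (hR : R.Finite)
    (hgood : Good ev ev' R) (y : D → Y) (T : Finset D) :
    ∃ z : Y, (∀ t ∈ T, ∃ s, Match ev ev' R t s ∧ ev' z s = ev' (y t) s) ∧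
      (∀ s, (∃ t ∈ T, Match ev ev' R t s) →
        ∃ t ∈ T, Match ev ev' R t s ∧ ev' z s = ev' (y t) s) := by
  classical
  induction T using Finset.induction_on with
  | empty =>
    obtain ⟨z⟩ := hH.ne
    exact ⟨z, by simp, by simp⟩
  | insert t0 T ht0 ih =>
    obtain ⟨z, hz1, hz2⟩ := ih
    have hEne : Nonempty E := (hgood.1 t0).nonempty
    choose! w hw1 hw2 using hz1
    -- the set where t0 matches
    have hVdef := isDef_match (ev := ev) hH hR t0
    have hVne : {s | Match ev ev' R t0 s}.Nonempty := hgood.1 t0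
    have key : ∃ V : Set E, IsDef ev' V ∧ V.Nonempty ∧ V ⊆ {s | Match ev ev' R t0 s} ∧
        (∀ t ∈ T, w t ∉ V) ∧
        (∀ s, Match ev ev' R t0 s → s ∈ V ∨ ∃ t ∈ T, Match ev ev' R t s) := by
      by_cases hc : ∃ t1 ∈ T, ∃ s1, Match ev ev' R t0 s1 ∧ Match ev ev' R t1 s1
      · obtain ⟨t1, ht1, s1, h1, h2⟩ := hc
        obtain ⟨V, hV, hVn, hVU, hVW⟩ := avoid hH (T.image w) hVdef hVne
        refine ⟨V, hV, hVn, hVU, fun t ht => hVW _ (Finset.mem_image_of_mem _ ht), ?_⟩
        intro s hs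
        right
        refine ⟨t1, ht1, fun p hp q hq => ?_⟩
        rw [h2 p hp q hq, ← h1 p hp q hq, hs p hp q hq]
      · push Not at hc
        refine ⟨_, hVdef, hVne, subset_rfl, ?_, fun s hs => Or.inl hs⟩
        intro t ht h
        exact hc t ht (w t) h (hw1 t ht)
    obtain ⟨V, hV, hVn, hVU, hVW, hVs⟩ := key
    obtain ⟨z', hz'⟩ := paste_def hH hV (y t0) z
    refine ⟨z', ?_, ?_⟩
    · intro t ht
      rcases Finset.mem_insert.1 ht with rfl | ht
      · obtain ⟨s, hs⟩ := hVn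
        exact ⟨s, hVU hs, (hz' s).1 hs⟩
      · exact ⟨w t, hw1 t ht, by rw [(hz' (w t)).2 (hVW t ht)]; exact hw2 t ht⟩
    · rintro s ⟨t, ht, hts⟩
      by_cases hsV : s ∈ V
      · exact ⟨t0, Finset.mem_insert_self _ _, hVU hsV, (hz' s).1 hsV⟩
      · have : ∃ t ∈ T, Match ev ev' R t s := by
          rcases Finset.mem_insert.1 ht with rfl | ht
          · exact (hVs s hts).resolve_left hsV
          · exact ⟨t, ht, hts⟩
        obtain ⟨t', ht', h1, h2⟩ := hz2 s this
        exact ⟨t', Finset.mem_insert_of_mem ht', h1, by rw [(hz' s).2 hsV]; exact h2⟩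

theorem extend (hH : Generic ev') {R : Set (X × Y)} (hR : R.Finite) (hne : R.Nonempty)
    (hgood : Good ev ev' R) (x : X) : ∃ z : Y, Good ev ev' (insert (x, z) R) := by
  classical
  choose y hy using fun t => exists_point (ev := ev) hH hR hne x t
  -- patterns
  let ι := {p : X × Y // p ∈ R}
  have hιfin : Finite ι := hR
  let patt : D → (ι → ι → Prop) × (ι → Prop) × (ι → Prop) := fun t =>
    (fun p q => ev p.1.1 t < ev q.1.1 t, fun p => ev p.1.1 t < ev x t,
      fun p => ev x t < ev p.1.1 t)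
  have hpatt : ∀ t t' (z : Y) (s : E), patt t = patt t' →
      Match ev ev' (insert (x, z) R) t s → Match ev ev' (insert (x, z) R) t' s := by
    intro t t' z s htt h p hp q hq
    have e1 := fun p q => congrFun (congrFun (congrArg (fun P => P.1) htt) p) q
    have e2 := fun p => congrFun (congrArg (fun P => P.2.1) htt) p
    have e3 := fun p => congrFun (congrArg (fun P => P.2.2) htt) p
    rw [← h p hp q hq]
    rcases hp with rfl | hp
    · rcases hq with rfl | hq
      · simp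
      · exact (Iff.of_eq (e3 ⟨q, hq⟩)).symm
    · rcases hq with rfl | hq
      · exact (Iff.of_eq (e2 ⟨p, hp⟩)).symm
      · exact (Iff.of_eq (e1 ⟨p, hp⟩ ⟨q, hq⟩)).symm
  have hpattR : ∀ t t' (s : E), patt t = patt t' →
      Match ev ev' R t s → Match ev ev' R t' s := by
    intro t t' s htt h p hp q hq
    have e1 := fun p q => congrFun (congrFun (congrArg (fun P => P.1) htt) p) q
    rw [← h p hp q hq]
    exact (Iff.of_eq (e1 ⟨p, hp⟩ ⟨q, hq⟩)).symm
  have hfin : (Set.range patt).Finite := Set.toFinite _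
  -- representatives
  have hrep : ∃ T : Finset D, ∀ t, ∃ t0 ∈ T, patt t0 = patt t := by
    rcases isEmpty_or_nonempty D with hD | hD
    · exact ⟨∅, fun t => isEmptyElim t⟩
    choose! rep hrep using fun (P : _) (hP : P ∈ Set.range patt) => hP
    refine ⟨hfin.toFinset.image rep, fun t => ⟨rep (patt t), ?_, hrep _ ⟨t, rfl⟩⟩⟩
    exact Finset.mem_image_of_mem _ (by simp)
  obtain ⟨T, hT⟩ := hrep
  obtain ⟨z, hz1, hz2⟩ := exists_glue hH hR hgood y T
  have hconv : ∀ t s, Match ev ev' R t s → ev' z s = ev' (y t) s →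
      Match ev ev' (insert (x, z) R) t s := by
    intro t s hts hzs
    have h := hy t s hts
    intro p hp q hq
    rcases hp with rfl | hp
    · rcases hq with rfl | hq
      · simp
      · have := h (x, y t) (Set.mem_insert _ _) q (Set.mem_insert_of_mem _ hq)
        simp only at this ⊢
        rw [hzs]; exact this
    · rcases hq with rfl | hq
      · have := h p (Set.mem_insert_of_mem _ hp) (x, y t) (Set.mem_insert _ _)
        simp only at this ⊢
        rw [hzs]; exact this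
      · exact hts p hp q hq
  refine ⟨z, fun t => ?_, fun s => ?_⟩
  · obtain ⟨t0, ht0, he⟩ := hT t
    obtain ⟨s, hs1, hs2⟩ := hz1 t0 ht0
    exact ⟨s, hpatt t0 t z s he (hconv t0 s hs1 hs2)⟩
  · obtain ⟨t, ht⟩ := hgood.2 s
    obtain ⟨t0, ht0, he⟩ := hT t
    obtain ⟨t', ht', h1, h2⟩ := hz2 s ⟨t0, ht0, hpattR t t0 s he.symm ht⟩
    exact ⟨t', hconv t' s h1 h2⟩

end two

end Pool.Agent.UniqueAdd
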