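import Mathlib
import Pool.Agent.UniqueAdd.BackForth

set_option autoImplicit false

namespace Pool.Agent.UniqueAdd

/-! ### The shift operators -/

/-- One step of evaluation: `(b₀, b₁, b₂, …) ↦ ((m+2) b₀ + b₁, b₂, …)`. -/
def step (m : ℕ) (b : ℕ → ℤ) : ℕ → ℤ
  | 0 => ((m : ℤ) + 2) * b 0 + b 1
  | (n + 1) => b (n + 2)

@[simp] theorem step_zero (m : ℕ) (b : ℕ → ℤ) : step m b 0 = ((m : ℤ) + 2) * b 0 + b 1 := rfl
@[simp] theorem step_succ (m : ℕ) (b : ℕ → ℤ) (n : ℕ) : step m b (n + 1) = b (n + 2) := rfl

/-- Iterated steps. -/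
def evl : List ℕ → (ℕ → ℤ) → (ℕ → ℤ)
  | [], b => b
  | m :: t, b => evl t (step m b)

theorem evl_append (s t : List ℕ) (b : ℕ → ℤ) : evl (s ++ t) b = evl t (evl s b) := by
  induction s generalizing b with
  | nil => rfl
  | cons m s ih => exact ih _

theorem step_add (m : ℕ) (a b : ℕ → ℤ) : step m (a + b) = step m a + step m b := by
  funext n
  cases n with
  | zero => simp [step]; ring
  | succ n => simp [step]

theorem evl_add (t : List ℕ) (a b : ℕ → ℤ) : evl t (a + b) = evl t a + evl t b := by
  induction t generalizing a b with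
  | nil => rfl
  | cons m t ih => simp only [evl, step_add, ih]

theorem step_neg (m : ℕ) (a : ℕ → ℤ) : step m (-a) = - step m a := by
  funext n
  cases n with
  | zero => simp [step]; ring
  | succ n => simp [step]

theorem evl_neg (t : List ℕ) (a : ℕ → ℤ) : evl t (-a) = - evl t a := by
  induction t generalizing a with
  | nil => rfl
  | cons m t ih => simp only [evl, step_neg, ih]

theorem evl_sub (t : List ℕ) (a b : ℕ → ℤ) : evl t (a - b) = evl t a - evl t b := by
  rw [sub_eq_add_neg, sub_eq_add_neg, evl_add, evl_neg]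

/-- Lexicographic positivity. -/
def LPos (b : ℕ → ℤ) : Prop := ∃ r, (∀ j < r, b j = 0) ∧ 0 < b r

theorem toLex_lt_iff (a b : ℕ → ℤ) : toLex a < toLex b ↔ LPos (b - a) := by
  constructor
  · rintro ⟨i, h1, h2⟩
    refine ⟨i, fun j hj => ?_, ?_⟩
    · have := h1 j hj
      simp only [Pi.toLex_apply] at this
      simp [this]
    · simp only [Pi.toLex_apply] at h2
      simpa using h2
  · rintro ⟨i, h1, h2⟩
    refine ⟨i, fun j hj => ?_, ?_⟩
    · have := h1 j hj
      simp only [Pi.sub_apply] at this
      show a j = b j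
      omega
    · show a i < b i
      simpa using h2

/-- Positivity robust under large steps. -/
def Inv (S : ℕ) (b : ℕ → ℤ) : Prop :=
  ∃ r, (∀ j < r, b j = 0) ∧ 0 < b r ∧ ∀ j, r < j → |b j| ≤ S

theorem Inv.lpos {S : ℕ} {b : ℕ → ℤ} (h : Inv S b) : LPos b := by
  obtain ⟨r, h1, h2, _⟩ := h
  exact ⟨r, h1, h2⟩

theorem Inv.step {S : ℕ} {b : ℕ → ℤ} (h : Inv S b) {m : ℕ} (hm : S ≤ m + 1) :
    Inv S (step m b) := by
  obtain ⟨r, h1, h2, h3⟩ := h
  cases r with
  | zero =>
    refine ⟨0, by simp, ?_, ?_⟩
    · have := h3 1 (by norm_num)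
      rw [abs_le] at this
      simp only [step_zero]
      have hm' : (S : ℤ) ≤ m + 1 := by exact_mod_cast hm
      nlinarith [h2, this.1]
    · intro j hj
      cases j with
      | zero => omega
      | succ j => exact h3 _ (by omega)
  | succ r =>
    refine ⟨r, ?_, ?_, ?_⟩
    · intro j hj
      cases j with
      | zero => simp [h1 0 (by omega), h1 1 (by omega)]
      | succ j => exact h1 _ (by omega)
    · cases r with
      | zero => simpa [h1 0 (by omega)] using h2
      | succ r => exact h2
    · intro j hj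
      cases j with
      | zero => omega
      | succ j => exact h3 _ (by omega)

theorem Inv.evl {S : ℕ} {b : ℕ → ℤ} (h : Inv S b) {w : List ℕ} (hw : ∀ m ∈ w, S ≤ m + 1) :
    Inv S (evl w b) := by
  induction w generalizing b with
  | nil => exact h
  | cons m w ih =>
    exact ih (h.step (hw m (by simp))) (fun k hk => hw k (by simp [hk]))

/-- Finitely supported. -/
def FS (b : ℕ → ℤ) : Prop := ∃ N, ∀ n, N ≤ n → b n = 0

theorem FS.bounded {b : ℕ → ℤ} (h : FS b) : ∃ S : ℕ, ∀ n, |b n| ≤ S := by
  obtain ⟨N, hN⟩ := h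
  refine ⟨∑ i ∈ Finset.range N, (b i).natAbs, fun n => ?_⟩
  by_cases hn : N ≤ n
  · rw [hN n hn]; simp; positivity
  · have h1 : (b n).natAbs ≤ ∑ i ∈ Finset.range N, (b i).natAbs :=
      Finset.single_le_sum (f := fun i => (b i).natAbs) (fun _ _ => Nat.zero_le _)
        (Finset.mem_range.2 (by omega))
    rw [Int.abs_eq_natAbs]
    exact_mod_cast h1

theorem FS.step {b : ℕ → ℤ} (h : FS b) (m : ℕ) : FS (step m b) := by
  obtain ⟨N, hN⟩ := h
  refine ⟨N + 1, fun n hn => ?_⟩
  cases n with
  | zero => omega
  | succ n => exact hN _ (by omega)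

theorem FS.evl {b : ℕ → ℤ} (h : FS b) (t : List ℕ) : FS (evl t b) := by
  induction t generalizing b with
  | nil => exact h
  | cons m t ih => exact ih (h.step m)

theorem FS.sub {a b : ℕ → ℤ} (ha : FS a) (hb : FS b) : FS (a - b) := by
  obtain ⟨N, hN⟩ := ha
  obtain ⟨M, hM⟩ := hb
  exact ⟨N + M, fun n hn => by simp [hN n (by omega), hM n (by omega)]⟩

theorem FS.exists_inv {b : ℕ → ℤ} (h : FS b) (hb : LPos b) : ∃ S, Inv S b := by
  obtain ⟨S, hS⟩ := h.bounded
  obtain ⟨r, h1, h2⟩ := hb
  exact ⟨S, r, h1, h2, fun j _ => hS j⟩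

theorem FS.exists_lpos {b : ℕ → ℤ} (h : FS b) (hb : LPos b) :
    ∃ S : ℕ, ∀ w : List ℕ, (∀ m ∈ w, S ≤ m) → LPos (Pool.Agent.UniqueAdd.evl w b) := by
  obtain ⟨S, hS⟩ := h.exists_inv hb
  exact ⟨S, fun w hw => (hS.evl (fun m hm => (hw m hm).trans (Nat.le_succ _))).lpos⟩

/-- unit sequences -/
def single (k : ℕ) (c : ℤ) : ℕ → ℤ := fun n => if n = k then c else 0

theorem step_single_succ (m k : ℕ) (c : ℤ) : step m (single (k + 1) c) = single k c := by
  funext n
  cases n with
  | zero =>
    simp only [step_zero, single]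
    by_cases hk : k = 0
    · subst hk; simp
    · have : (0 = k) = False := by simp [Ne.symm hk]
      simp [this]
      omega
  | succ n =>
    simp only [step_succ, single]
    by_cases h : n + 1 = k
    · subst h; simp
    · have h' : ¬ (n + 2 = k + 1) := by omega
      simp [h, h']

theorem step_single_zero (m : ℕ) (c : ℤ) : step m (single 0 c) = single 0 (((m : ℤ) + 2) * c) := by
  funext n
  cases n with
  | zero => simp [single]
  | succ n => simp [single]

theorem evl_single (t : List ℕ) (k : ℕ) (c : ℤ) :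
    evl t (single (t.length + k) c) = single k c := by
  induction t with
  | nil => simp [evl]
  | cons m t ih =>
    have : (m :: t).length + k = (t.length + k) + 1 := by simp; omega
    rw [this]
    simp only [evl, step_single_succ]
    exact ih

theorem evl_replicate_shift (C r : ℕ) (b : ℕ → ℤ) (hb : ∀ j < r, b j = 0) :
    evl (List.replicate r C) b 0 = b r := by
  induction r generalizing b with
  | zero => rfl
  | succ r ih =>
    simp only [List.replicate_succ, evl]
    rw [ih]
    · cases r with
      | zero => simp [hb 0 (by omega)]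
      | succ r => rfl
    · intro j hj
      cases j with
      | zero => simp [hb 0 (by omega), hb 1 (by omega)]
      | succ j => exact hb _ (by omega)

/-! density -/

/-- phase invariant for density -/
def Dn (e c : ℕ → ℤ) : Prop :=
  (∃ k, e = single (k + 1) 1 ∧ ∀ n, k < n → c n = 0) ∨
  (∃ M : ℤ, 1 ≤ M ∧ e = single 0 M ∧ (∀ n, 0 < n → c n = 0) ∧ (c 0 ≤ 0 ∨ 2 * M ≤ c 0))

theorem Dn.step {e c : ℕ → ℤ} (h : Dn e c) (m : ℕ) :
    Dn (Pool.Agent.UniqueAdd.step m e) (Pool.Agent.UniqueAdd.step m c) := by
  rcases h with ⟨k, rfl, h⟩ | ⟨M, hM, rfl, h, h'⟩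
  · cases k with
    | zero =>
      right
      refine ⟨1, le_rfl, step_single_succ _ _ _, ?_, ?_⟩
      · intro n hn
        cases n with
        | zero => omega
        | succ n => exact h _ (by omega)
      · simp only [step_zero, h 1 (by omega), add_zero]
        by_cases hc : c 0 ≤ 0
        · left
          have : (0 : ℤ) ≤ m := by positivity
          nlinarith
        · right
          have : (0 : ℤ) ≤ m := by positivity
          have : 1 ≤ c 0 := by omega
          nlinarith
    | succ k =>
      left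
      refine ⟨k, step_single_succ _ _ _, ?_⟩
      intro n hn
      cases n with
      | zero => omega
      | succ n => exact h _ (by omega)
  · right
    have hm : (0 : ℤ) ≤ m := by positivity
    refine ⟨(m + 2) * M, by nlinarith, step_single_zero _ _, ?_, ?_⟩
    · intro n hn
      cases n with
      | zero => omega
      | succ n => exact h _ (by omega)
    · simp only [step_zero, h 1 (by omega), add_zero]
      rcases h' with h' | h'
      · left; nlinarith
      · right; nlinarith

theorem Dn.evl {e c : ℕ → ℤ} (h : Dn e c) (t : List ℕ) :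
    Dn (Pool.Agent.UniqueAdd.evl t e) (Pool.Agent.UniqueAdd.evl t c) := by
  induction t generalizing e c with
  | nil => exact h
  | cons m t ih => exact ih (h.step m)

theorem Dn.lpos_left {e c : ℕ → ℤ} (h : Dn e c) : LPos e := by
  rcases h with ⟨k, rfl, h⟩ | ⟨M, hM, rfl, h, h'⟩
  · exact ⟨k + 1, fun j hj => by simp [single]; omega, by simp [single]⟩
  · exact ⟨0, by simp, by simp [single]; omega⟩

theorem Dn.lpos_sub {e c : ℕ → ℤ} (h : Dn e c) (hc : LPos c) : LPos (c - e) := by
  rcases h with ⟨k, rfl, h⟩ | ⟨M, hM, rfl, h, h'⟩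
  · obtain ⟨r, h1, h2⟩ := hc
    have hr : r ≤ k := by
      by_contra hr
      rw [h r (by omega)] at h2
      omega
    refine ⟨r, fun j hj => ?_, ?_⟩
    · have : ¬ (j = k + 1) := by omega
      simp [single, h1 j hj, this]
    · have : ¬ (r = k + 1) := by omega
      simpa [single, this] using h2
  · obtain ⟨r, h1, h2⟩ := hc
    have hr : r = 0 := by
      by_contra hr
      rw [h r (by omega)] at h2
      omega
    subst hr
    refine ⟨0, by simp, ?_⟩
    simp only [Pi.sub_apply, single, if_true]
    omega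

end Pool.Agent.UniqueAdd
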