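import Mathlib
import Pool.Agent.UniqueAdd.Concrete

set_option autoImplicit false

namespace Pool.Agent.UniqueAdd

/-- Terms for the members of `G`. -/
inductive Term : Type
  | base (a : ℕ →₀ ℤ) : Term
  | ite (p q f g : Term) : Term
  deriving Countable

open scoped Classical in
/-- Value of a term: a function on finite lists with values in the lexicographic group. -/
noncomputable def Term.val : Term → List ℕ → Lex (ℕ → ℤ)
  | .base a => fun t => toLex (evl t a)
  | .ite p q f g => fun t => if p.val t < q.val t then f.val t else g.val t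

theorem Term.val_base (a : ℕ →₀ ℤ) (t : List ℕ) : (Term.base a).val t = toLex (evl t a) := rfl

theorem Term.val_ite_pos {p q f g : Term} {t : List ℕ} (h : p.val t < q.val t) :
    (Term.ite p q f g).val t = f.val t := by
  simp [Term.val, h]

theorem Term.val_ite_neg {p q f g : Term} {t : List ℕ} (h : ¬ p.val t < q.val t) :
    (Term.ite p q f g).val t = g.val t := by
  rw [Term.val]; simp only [if_neg h]

theorem toLex_evl_add (t : List ℕ) (a b : ℕ →₀ ℤ) :
    toLex (evl t (a + b : ℕ →₀ ℤ)) = toLex (evl t a) + toLex (evl t b) := by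
  rw [Finsupp.coe_add, evl_add]; rfl

theorem Term.add_base (a : ℕ →₀ ℤ) (y : Term) : ∃ z : Term, z.val = (Term.base a).val + y.val := by
  induction y with
  | base b => exact ⟨.base (a + b), by funext t; simp only [Pi.add_apply, val_base, toLex_evl_add]⟩
  | ite p q f g _ _ ihf ihg =>
    obtain ⟨f', hf⟩ := ihf
    obtain ⟨g', hg⟩ := ihg
    refine ⟨.ite p q f' g', ?_⟩
    funext t
    by_cases h : p.val t < q.val t
    · simp only [Pi.add_apply, val_ite_pos h, hf]
    · simp only [Pi.add_apply, val_ite_neg h, hg]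

theorem Term.exists_add (x y : Term) : ∃ z : Term, z.val = x.val + y.val := by
  induction x with
  | base a => exact Term.add_base a y
  | ite p q f g _ _ ihf ihg =>
    obtain ⟨f', hf⟩ := ihf
    obtain ⟨g', hg⟩ := ihg
    refine ⟨.ite p q f' g', ?_⟩
    funext t
    by_cases h : p.val t < q.val t
    · simp only [Pi.add_apply, val_ite_pos h, hf]
    · simp only [Pi.add_apply, val_ite_neg h, hg]

theorem Term.exists_neg (x : Term) : ∃ z : Term, z.val = - x.val := by
  induction x with
  | base a =>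
    refine ⟨.base (-a), ?_⟩
    funext t
    simp only [Pi.neg_apply, val_base, Finsupp.coe_neg, evl_neg]; rfl
  | ite p q f g _ _ ihf ihg =>
    obtain ⟨f', hf⟩ := ihf
    obtain ⟨g', hg⟩ := ihg
    refine ⟨.ite p q f' g', ?_⟩
    funext t
    by_cases h : p.val t < q.val t
    · simp only [Pi.neg_apply, val_ite_pos h, hf]
    · simp only [Pi.neg_apply, val_ite_neg h, hg]

theorem Term.val_sup (x y : Term) : (Term.ite x y y x).val = x.val ⊔ y.val := by
  funext t
  by_cases h : x.val t < y.val t
  · rw [val_ite_pos h, Pi.sup_apply, sup_eq_right.2 h.le]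
  · rw [val_ite_neg h, Pi.sup_apply, sup_eq_left.2 (not_lt.1 h)]

theorem Term.val_inf (x y : Term) : (Term.ite x y x y).val = x.val ⊓ y.val := by
  funext t
  by_cases h : x.val t < y.val t
  · rw [val_ite_pos h, Pi.inf_apply, inf_eq_left.2 h.le]
  · rw [val_ite_neg h, Pi.inf_apply, inf_eq_right.2 (not_lt.1 h)]

/-- The group `G`. -/
noncomputable def GSub : AddSubgroup (List ℕ → Lex (ℕ → ℤ)) where
  carrier := Set.range Term.val
  add_mem' := by
    rintro _ _ ⟨x, rfl⟩ ⟨y, rfl⟩
    obtain ⟨z, hz⟩ := Term.exists_add x y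
    exact ⟨z, hz⟩
  zero_mem' := ⟨.base 0, by
    funext t
    simp only [Term.val_base, Pi.zero_apply]
    have : evl t ((0 : ℕ →₀ ℤ) : ℕ → ℤ) = 0 := by
      have h := evl_sub t (0 : ℕ → ℤ) 0
      simpa using h
    rw [this]; rfl⟩
  neg_mem' := by
    rintro _ ⟨x, rfl⟩
    obtain ⟨z, hz⟩ := Term.exists_neg x
    exact ⟨z, hz⟩

/-- The type underlying `G`. -/
abbrev GT : Type := GSub

theorem GT.exists_term (f : GT) : ∃ x : Term, x.val = f.1 := f.2

/-- element of `G` from a term -/
noncomputable def mk (x : Term) : GT := ⟨x.val, x, rfl⟩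

instance : Countable GT := by
  have : Function.Surjective mk := fun f => by
    obtain ⟨x, hx⟩ := f.exists_term
    exact ⟨x, Subtype.ext hx⟩
  exact this.countable

noncomputable instance instLatticeGT : Lattice GT :=
  Subtype.lattice (P := fun f => f ∈ GSub)
    (by rintro _ _ ⟨x, rfl⟩ ⟨y, rfl⟩; exact ⟨_, Term.val_sup x y⟩)
    (by rintro _ _ ⟨x, rfl⟩ ⟨y, rfl⟩; exact ⟨_, Term.val_inf x y⟩)

theorem GT.coe_sup (f g : GT) : (f ⊔ g).1 = f.1 ⊔ g.1 := rfl
theorem GT.coe_inf (f g : GT) : (f ⊓ g).1 = f.1 ⊓ g.1 := rfl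
theorem GT.le_iff (f g : GT) : f ≤ g ↔ ∀ t, f.1 t ≤ g.1 t := Iff.rfl

instance : IsOrderedAddMonoid GT where
  add_le_add_left f g h k := fun t => by
    have := h t
    show f.1 t + k.1 t ≤ g.1 t + k.1 t
    gcongr

/-! ### tameness -/

theorem fs_finsupp (a : ℕ →₀ ℤ) : FS a := by
  refine ⟨a.support.sup id + 1, fun n hn => ?_⟩
  by_contra h
  have : n ∈ a.support := Finsupp.mem_support_iff.2 h
  have := Finset.le_sup (f := id) this
  simp at this
  omega

theorem Term.fs (x : Term) (t : List ℕ) : FS (ofLex (x.val t)) := by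
  induction x with
  | base a => exact (fs_finsupp a).evl t
  | ite p q f g _ _ ihf ihg =>
    by_cases h : p.val t < q.val t
    · rw [val_ite_pos h]; exact ihf
    · rw [val_ite_neg h]; exact ihg

theorem lt_iff' (a b : Lex (ℕ → ℤ)) : a < b ↔ LPos (ofLex b - ofLex a) :=
  toLex_lt_iff (ofLex a) (ofLex b)

/-- strict inequalities at `s` persist along extensions with large entries -/
theorem persist {a b : ℕ → ℤ} (ha : FS a) (hb : FS b) (h : toLex a < toLex b) :
    ∃ S : ℕ, ∀ w : List ℕ, (∀ m ∈ w, S ≤ m) → toLex (evl w a) < toLex (evl w b) := by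
  rw [toLex_lt_iff] at h
  obtain ⟨S, hS⟩ := (hb.sub ha).exists_lpos h
  refine ⟨S, fun w hw => ?_⟩
  rw [toLex_lt_iff, ← evl_sub]
  exact hS w hw

theorem Term.tame (x : Term) (s : List ℕ) :
    ∃ S : ℕ, ∀ w : List ℕ, (∀ m ∈ w, S ≤ m) → x.val (s ++ w) = toLex (evl w (ofLex (x.val s))) := by
  induction x with
  | base a => exact ⟨0, fun w _ => by simp only [val_base, evl_append, ofLex_toLex]⟩
  | ite p q f g ihp ihq ihf ihg =>
    obtain ⟨Sp, hp⟩ := ihp
    obtain ⟨Sq, hq⟩ := ihq
    obtain ⟨Sf, hf⟩ := ihf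
    obtain ⟨Sg, hg⟩ := ihg
    rcases lt_trichotomy (p.val s) (q.val s) with h | h | h
    · obtain ⟨S, hS⟩ := persist (p.fs s) (q.fs s) h
      refine ⟨Sp + Sq + Sf + Sg + S, fun w hw => ?_⟩
      have h1 := hp w (fun m hm => by have := hw m hm; omega)
      have h2 := hq w (fun m hm => by have := hw m hm; omega)
      have h3 := hf w (fun m hm => by have := hw m hm; omega)
      have h4 := hS w (fun m hm => by have := hw m hm; omega)
      rw [← h1, ← h2] at h4
      rw [val_ite_pos h4, h3, val_ite_pos h]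
    · refine ⟨Sp + Sq + Sf + Sg, fun w hw => ?_⟩
      have h1 := hp w (fun m hm => by have := hw m hm; omega)
      have h2 := hq w (fun m hm => by have := hw m hm; omega)
      have h3 := hg w (fun m hm => by have := hw m hm; omega)
      have h4 : ¬ p.val (s ++ w) < q.val (s ++ w) := by rw [h1, h2, h]; exact lt_irrefl _
      rw [val_ite_neg h4, h3, val_ite_neg (by rw [h]; exact lt_irrefl _)]
    · obtain ⟨S, hS⟩ := persist (q.fs s) (p.fs s) h
      refine ⟨Sp + Sq + Sf + Sg + S, fun w hw => ?_⟩
      have h1 := hp w (fun m hm => by have := hw m hm; omega)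
      have h2 := hq w (fun m hm => by have := hw m hm; omega)
      have h3 := hg w (fun m hm => by have := hw m hm; omega)
      have h4 := hS w (fun m hm => by have := hw m hm; omega)
      rw [← h1, ← h2] at h4
      rw [val_ite_neg h4.asymm, h3, val_ite_neg h.asymm]

/-! ### genericity of `G` -/

theorem single_eq (k : ℕ) (c : ℤ) : ((Finsupp.single k c : ℕ →₀ ℤ) : ℕ → ℤ) = single k c := by
  funext n
  simp only [single, Finsupp.single_apply]
  simp [eq_comm]

theorem Term.exists_between (x y : Term) :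
    ∃ z : Term, ∀ t, x.val t < y.val t → x.val t < z.val t ∧ z.val t < y.val t := by
  induction x with
  | base a =>
    induction y with
    | base b =>
      obtain ⟨N, hN⟩ := (fs_finsupp b).sub (fs_finsupp a)
      refine ⟨.base (a + Finsupp.single (N + 1) 1), fun t ht => ?_⟩
      have hD : Dn (single (N + 1) 1) (((b : ℕ → ℤ)) - a) := by
        left
        exact ⟨N, rfl, fun n hn => hN n (by omega)⟩
      have hD' := hD.evl t
      simp only [val_base] at ht ⊢
      rw [toLex_lt_iff, ← evl_sub] at ht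
      rw [toLex_lt_iff, toLex_lt_iff, ← evl_sub, ← evl_sub, Finsupp.coe_add, single_eq]
      refine ⟨?_, ?_⟩
      · simpa using hD'.lpos_left
      · have := hD'.lpos_sub ht
        rw [← evl_sub] at this
        convert this using 2
        abel
    | ite p q f g _ _ ihf ihg =>
      obtain ⟨f', hf⟩ := ihf
      obtain ⟨g', hg⟩ := ihg
      refine ⟨.ite p q f' g', fun t => ?_⟩
      by_cases h : p.val t < q.val t
      · rw [val_ite_pos h, val_ite_pos h]; exact hf t
      · rw [val_ite_neg h, val_ite_neg h]; exact hg t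
  | ite p q f g _ _ ihf ihg =>
    obtain ⟨f', hf⟩ := ihf
    obtain ⟨g', hg⟩ := ihg
    refine ⟨.ite p q f' g', fun t => ?_⟩
    by_cases h : p.val t < q.val t
    · rw [val_ite_pos h, val_ite_pos h]; exact hf t
    · rw [val_ite_neg h, val_ite_neg h]; exact hg t

theorem lpos_evl_single_zero (t : List ℕ) : LPos (evl t (single 0 1)) := by
  have : Inv 0 (single 0 1) := ⟨0, by simp, by simp [single], fun j hj => by
    simp [single]; omega⟩
  exact (this.evl (fun m _ => Nat.zero_le _)).lpos

/-- The constant `e₀`. -/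
noncomputable def e0 : GT := mk (.base (Finsupp.single 0 1))

theorem e0_pos (t : List ℕ) : 0 < e0.1 t := by
  show (0 : Lex (ℕ → ℤ)) < toLex (evl t _)
  rw [lt_iff', single_eq]
  simpa using lpos_evl_single_zero t

theorem generic_G : Generic (fun (f : GT) (t : List ℕ) => f.1 t) where
  paste a b f g := by
    obtain ⟨a, ha⟩ := a.exists_term
    obtain ⟨b, hb⟩ := b.exists_term
    obtain ⟨f, hf⟩ := f.exists_term
    obtain ⟨g, hg⟩ := g.exists_term
    refine ⟨mk (.ite a b f g), fun t => ?_⟩
    rw [← ha, ← hb, ← hf, ← hg]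
    exact ⟨fun h => Term.val_ite_pos h, fun h => Term.val_ite_neg h⟩
  dense f g := by
    obtain ⟨f, hf⟩ := f.exists_term
    obtain ⟨g, hg⟩ := g.exists_term
    obtain ⟨z, hz⟩ := Term.exists_between f g
    refine ⟨mk z, fun t => ?_⟩
    rw [← hf, ← hg]
    exact hz t
  up f := ⟨f + e0, fun t => by
    show f.1 t < f.1 t + e0.1 t
    exact lt_add_of_pos_right _ (e0_pos t)⟩
  down f := ⟨f - e0, fun t => by
    show f.1 t - e0.1 t < f.1 t
    exact sub_lt_self _ (e0_pos t)⟩
  split f g := by
    rintro ⟨s, hs⟩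
    obtain ⟨f, hf⟩ := f.exists_term
    obtain ⟨g, hg⟩ := g.exists_term
    rw [← hf, ← hg] at hs ⊢
    obtain ⟨S1, h1⟩ := f.tame s
    obtain ⟨S2, h2⟩ := g.tame s
    obtain ⟨S3, h3⟩ := persist (f.fs s) (g.fs s) hs
    let C := S1 + S2 + S3
    refine ⟨mk (.base (Finsupp.single (s.length + 1) ((C : ℤ) + 2))),
      mk (.base (Finsupp.single s.length 1)), ⟨s, hs, ?_⟩, ⟨s ++ [C], ?_, ?_⟩⟩
    · show toLex (evl s _) < toLex (evl s _)
      rw [single_eq, single_eq, evl_single, toLex_lt_iff]
      have := evl_single s 0 1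
      rw [add_zero] at this
      rw [this]
      exact ⟨0, by simp, by simp [single]⟩
    · rw [h1 [C] (by simp [C]; omega), h2 [C] (by simp [C]; omega)]
      exact h3 [C] (by simp [C])
    · show ¬ toLex (evl (s ++ [C]) _) < toLex (evl (s ++ [C]) _)
      rw [single_eq, single_eq, evl_append, evl_append, evl_single]
      have := evl_single s 0 1
      rw [add_zero] at this
      rw [this]
      simp only [evl, step_single_zero, mul_one]
      have h5 := step_single_succ C 0 ((C : ℤ) + 2)
      rw [zero_add] at h5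
      rw [h5]
      exact lt_irrefl _
  ne := ⟨e0⟩

/-! ### embedding into integer-valued functions -/

theorem lex_zero_mono {a b : Lex (ℕ → ℤ)} (h : a ≤ b) : ofLex a 0 ≤ ofLex b 0 := by
  rcases h.lt_or_eq with h | h
  · obtain ⟨r, h1, h2⟩ := (lt_iff' a b).1 h
    cases r with
    | zero => simpa using h2.le
    | succ r =>
      have h3 : ofLex b 0 - ofLex a 0 = 0 := h1 0 (by omega)
      omega
  · rw [h]

/-- The embedding of `G` into integer-valued functions. -/
noncomputable def emb : GT →+ (List ℕ → ℤ) where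
  toFun f := fun t => ofLex (f.1 t) 0
  map_zero' := rfl
  map_add' _ _ := rfl

theorem emb_apply (f : GT) (t : List ℕ) : emb f t = ofLex (f.1 t) 0 := rfl

theorem lpos_or {b : ℕ → ℤ} (h : b ≠ 0) : ∃ r, (∀ j < r, b j = 0) ∧ b r ≠ 0 := by
  classical
  have h' : ∃ r, b r ≠ 0 := by
    by_contra hc
    push Not at hc
    exact h (funext hc)
  exact ⟨Nat.find h', fun j hj => by simpa using Nat.find_min h' hj, Nat.find_spec h'⟩

theorem emb_injective : Function.Injective emb := by
  rw [injective_iff_map_eq_zero]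
  intro f hf
  obtain ⟨x, hx⟩ := f.exists_term
  apply Subtype.ext
  funext s
  by_contra hne
  have hne' : ofLex (x.val s) ≠ 0 := by
    intro h
    apply hne
    rw [← hx]
    exact congrArg toLex h
  obtain ⟨r, h1, h2⟩ := lpos_or hne'
  obtain ⟨S, hS⟩ := x.tame s
  have h3 := hS (List.replicate r S) (fun m hm => by rw [List.eq_of_mem_replicate hm])
  have h4 : emb f (s ++ List.replicate r S) = 0 := by rw [hf]; rfl
  rw [emb_apply, ← hx, h3, ofLex_toLex, evl_replicate_shift _ _ _ h1] at h4
  exact h2 h4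

theorem lex_zero_max (a b : Lex (ℕ → ℤ)) : ofLex (a ⊔ b) 0 = ofLex a 0 ⊔ ofLex b 0 := by
  rcases le_total a b with h | h
  · rw [sup_eq_right.2 h, sup_eq_right.2 (lex_zero_mono h)]
  · rw [sup_eq_left.2 h, sup_eq_left.2 (lex_zero_mono h)]

theorem lex_zero_min (a b : Lex (ℕ → ℤ)) : ofLex (a ⊓ b) 0 = ofLex a 0 ⊓ ofLex b 0 := by
  rcases le_total a b with h | h
  · rw [inf_eq_left.2 h, inf_eq_left.2 (lex_zero_mono h)]
  · rw [inf_eq_right.2 h, inf_eq_right.2 (lex_zero_mono h)]

theorem emb_sup (f g : GT) : emb (f ⊔ g) = emb f ⊔ emb g := by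
  funext t
  exact lex_zero_max _ _

theorem emb_inf (f g : GT) : emb (f ⊓ g) = emb f ⊓ emb g := by
  funext t
  exact lex_zero_min _ _

theorem emb_surj (t : List ℕ) : Function.Surjective (fun f : GT => emb f t) := by
  intro c
  refine ⟨mk (.base (Finsupp.single t.length c)), ?_⟩
  show (evl t _) 0 = c
  rw [single_eq]
  have := evl_single t 0 c
  rw [add_zero] at this
  rw [this]
  simp [single]

end Pool.Agent.UniqueAdd
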