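import Mathlib
import Pool.Agent.UniqueAdd.BackForth

set_option autoImplicit false

namespace Pool.Agent.UniqueAdd

/-- The group `H` of functions `ℕ → ℚ` that are periodic with a period `2 ^ k`. -/
def HSub : AddSubgroup (ℕ → ℚ) where
  carrier := {f | ∃ k, ∀ m n, m ≡ n [MOD 2 ^ k] → f m = f n}
  add_mem' := by
    rintro f g ⟨k, hk⟩ ⟨l, hl⟩
    refine ⟨k + l, fun m n h => ?_⟩
    have h1 : m ≡ n [MOD 2 ^ k] := h.of_dvd (pow_dvd_pow 2 (Nat.le_add_right k l))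
    have h2 : m ≡ n [MOD 2 ^ l] := h.of_dvd (pow_dvd_pow 2 (Nat.le_add_left l k))
    simp only [Pi.add_apply, hk m n h1, hl m n h2]
  zero_mem' := ⟨0, fun _ _ _ => rfl⟩
  neg_mem' := by
    rintro f ⟨k, hk⟩
    exact ⟨k, fun m n h => by simp only [Pi.neg_apply, hk m n h]⟩

/-- The type underlying `H`. -/
abbrev HT : Type := HSub

instance : Countable HT := by
  let F : (Σ k : ℕ, (Fin (2 ^ k) → ℚ)) → HT := fun x =>
    ⟨fun n => x.2 ⟨n % 2 ^ x.1, Nat.mod_lt _ (by positivity)⟩, x.1, fun m n h => by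
      have h' : m % 2 ^ x.1 = n % 2 ^ x.1 := h
      simp only [h']⟩
  have hF : Function.Surjective F := by
    rintro ⟨f, k, hk⟩
    refine ⟨⟨k, fun i => f i⟩, ?_⟩
    apply Subtype.ext
    funext n
    exact hk _ _ (Nat.mod_modEq _ _)
  exact hF.countable

/-- pasting along a clopen set -/
theorem periodic_ite {f g : ℕ → ℚ} (hf : f ∈ HSub) (hg : g ∈ HSub) (U : ℕ → Prop)
    [DecidablePred U] (hU : ∃ k, ∀ m n, m ≡ n [MOD 2 ^ k] → (U m ↔ U n)) :
    (fun n => if U n then f n else g n) ∈ HSub := by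
  obtain ⟨k, hk⟩ := hf
  obtain ⟨l, hl⟩ := hg
  obtain ⟨u, hu⟩ := hU
  refine ⟨k + l + u, fun m n h => ?_⟩
  have h1 : m ≡ n [MOD 2 ^ k] := h.of_dvd (pow_dvd_pow 2 (by omega))
  have h2 : m ≡ n [MOD 2 ^ l] := h.of_dvd (pow_dvd_pow 2 (by omega))
  have h3 : m ≡ n [MOD 2 ^ u] := h.of_dvd (pow_dvd_pow 2 (by omega))
  simp only [hk m n h1, hl m n h2, hu m n h3]

theorem lt_clopen (a b : HT) : ∃ k, ∀ m n, m ≡ n [MOD 2 ^ k] → (a.1 m < b.1 m ↔ a.1 n < b.1 n) := by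
  obtain ⟨k, hk⟩ := a.2
  obtain ⟨l, hl⟩ := b.2
  refine ⟨k + l, fun m n h => ?_⟩
  have h1 : m ≡ n [MOD 2 ^ k] := h.of_dvd (pow_dvd_pow 2 (by omega))
  have h2 : m ≡ n [MOD 2 ^ l] := h.of_dvd (pow_dvd_pow 2 (by omega))
  rw [hk m n h1, hl m n h2]

theorem const_mem (c : ℚ) : (fun _ => c : ℕ → ℚ) ∈ HSub := ⟨0, fun _ _ _ => rfl⟩

/-- half of an element -/
noncomputable def half (f : HT) : HT := ⟨fun n => f.1 n / 2, by
  obtain ⟨k, hk⟩ := f.2
  exact ⟨k, fun m n h => by simp only [hk m n h]⟩⟩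

theorem half_add_half (f : HT) : half f + half f = f := by
  apply Subtype.ext
  funext n
  show f.1 n / 2 + f.1 n / 2 = f.1 n
  ring

theorem generic_H : Generic (fun (f : HT) (n : ℕ) => f.1 n) where
  paste a b f g := by
    classical
    refine ⟨⟨_, periodic_ite f.2 g.2 (fun n => a.1 n < b.1 n) (lt_clopen a b)⟩, fun t => ?_⟩
    exact ⟨fun h => by simp only [if_pos h], fun h => by simp only [if_neg h]⟩
  dense f g := by
    refine ⟨half (f + g), fun t h => ?_⟩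
    show f.1 t < (f.1 t + g.1 t) / 2 ∧ (f.1 t + g.1 t) / 2 < g.1 t
    constructor <;> linarith
  up f := ⟨f + ⟨_, const_mem 1⟩, fun t => by
    show f.1 t < f.1 t + 1
    linarith⟩
  down f := ⟨f - ⟨_, const_mem 1⟩, fun t => by
    show f.1 t - 1 < f.1 t
    linarith⟩
  split f g := by
    classical
    rintro ⟨t, ht⟩
    obtain ⟨k, hk⟩ := lt_clopen f g
    refine ⟨⟨_, const_mem 0⟩, ⟨fun n => if n ≡ t [MOD 2 ^ (k + 1)] then 1 else 0, k + 1, ?_⟩,
      ⟨t, ht, ?_⟩, ⟨t + 2 ^ k, ?_, ?_⟩⟩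
    · intro m n h
      have : m ≡ t [MOD 2 ^ (k + 1)] ↔ n ≡ t [MOD 2 ^ (k + 1)] :=
        ⟨fun h' => h.symm.trans h', fun h' => h.trans h'⟩
      simp only [this]
    · have : t ≡ t [MOD 2 ^ (k + 1)] := rfl
      simp [this]
    · rw [hk (t + 2 ^ k) t (by simp [Nat.ModEq])]
      exact ht
    · have : ¬ (t + 2 ^ k ≡ t [MOD 2 ^ (k + 1)]) := by
        intro h
        have h2 : 2 ^ k ≡ 0 [MOD 2 ^ (k + 1)] := by
          have : t + 2 ^ k ≡ t + 0 [MOD 2 ^ (k + 1)] := h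
          exact Nat.ModEq.add_left_cancel' t this
        have h3 := (Nat.modEq_zero_iff_dvd).1 h2
        have := (Nat.pow_dvd_pow_iff_le_right (by norm_num : 1 < 2)).1 h3
        omega
      simp [this]
  ne := ⟨0⟩

end Pool.Agent.UniqueAdd
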