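import Mathlib
import Pool.Agent.UniqueAdd.BackForth

set_option autoImplicit false

namespace Pool.Agent.UniqueAdd

variable {X D Λ : Type} [LinearOrder Λ] {ev : X → D → Λ}
variable {Y E M : Type} [LinearOrder M] {ev' : Y → E → M}

/-- Finite partial isomorphisms containing the base pair. -/
def PIso (ev : X → D → Λ) (ev' : Y → E → M) (x0 : X) (y0 : Y) : Type :=
  {R : Set (X × Y) // R.Finite ∧ (x0, y0) ∈ R ∧ Good ev ev' R}

instance (x0 : X) (y0 : Y) : Preorder (PIso ev ev' x0 y0) :=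
  Preorder.lift (fun R => R.1)

theorem extend_right (hG : Generic ev) {R : Set (X × Y)} (hR : R.Finite) (hne : R.Nonempty)
    (hgood : Good ev ev' R) (y : Y) : ∃ z : X, Good ev ev' (insert (z, y) R) := by
  obtain ⟨z, hz⟩ := extend (ev := ev') (ev' := ev) hG (R := Prod.swap '' R) (hR.image _)
    (hne.image _) hgood.swap y
  refine ⟨z, ?_⟩
  have h2 := hz.swap
  rw [Set.image_insert_eq, ← Set.image_comp] at h2
  simpa using h2

/-- The partial isomorphisms defined at `x`. -/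
def cofL (hH : Generic ev') (x0 : X) (y0 : Y) (x : X) : Order.Cofinal (PIso ev ev' x0 y0) where
  carrier := {R | ∃ y, (x, y) ∈ R.1}
  isCofinal R := by
    obtain ⟨z, hz⟩ := extend hH R.2.1 ⟨_, R.2.2.1⟩ R.2.2.2 x
    exact ⟨⟨insert (x, z) R.1, R.2.1.insert _, Set.mem_insert_of_mem _ R.2.2.1, hz⟩,
      ⟨z, Set.mem_insert _ _⟩, Set.subset_insert _ _⟩

/-- The partial isomorphisms defined at `y` on the right. -/
def cofR (hG : Generic ev) (x0 : X) (y0 : Y) (y : Y) : Order.Cofinal (PIso ev ev' x0 y0) where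
  carrier := {R | ∃ x, (x, y) ∈ R.1}
  isCofinal R := by
    obtain ⟨z, hz⟩ := extend_right hG R.2.1 ⟨_, R.2.2.1⟩ R.2.2.2 y
    exact ⟨⟨insert (z, y) R.1, R.2.1.insert _, Set.mem_insert_of_mem _ R.2.2.1, hz⟩,
      ⟨z, Set.mem_insert _ _⟩, Set.subset_insert _ _⟩

theorem good_le {R : Set (X × Y)} (h : Good ev ev' R) {p q : X × Y} (hp : p ∈ R) (hq : q ∈ R) :
    (∀ t, ev p.1 t ≤ ev q.1 t) ↔ (∀ s, ev' p.2 s ≤ ev' q.2 s) := by
  constructor
  · intro h1 s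
    obtain ⟨t, ht⟩ := h.2 s
    exact match_le ht hp hq (h1 t)
  · intro h1 t
    obtain ⟨s, hs⟩ := h.1 t
    have := h1 s
    rw [← not_lt] at this ⊢
    rwa [hs q hq p hp]

theorem exists_equiv [Countable X] [Countable Y] [Nonempty D] [Nonempty E]
    (hG : Generic ev) (hH : Generic ev')
    (hX : ∀ f g, (∀ t, ev f t = ev g t) → f = g) (hY : ∀ f g, (∀ t, ev' f t = ev' g t) → f = g)
    (x0 : X) (y0 : Y) :
    ∃ Φ : X ≃ Y, Φ x0 = y0 ∧
      ∀ f g : X, (∀ t, ev f t ≤ ev g t) ↔ ∀ s, ev' (Φ f) s ≤ ev' (Φ g) s := by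
  classical
  obtain ⟨eX⟩ := nonempty_encodable X
  obtain ⟨eY⟩ := nonempty_encodable Y
  have hbase : Good ev ev' {(x0, y0)} := by
    constructor
    · intro t
      obtain ⟨s⟩ := ‹Nonempty E›
      refine ⟨s, ?_⟩
      rintro p rfl q rfl
      simp
    · intro s
      obtain ⟨t⟩ := ‹Nonempty D›
      refine ⟨t, ?_⟩
      rintro p rfl q rfl
      simp
  let p0 : PIso ev ev' x0 y0 := ⟨{(x0, y0)}, Set.finite_singleton _, rfl, hbase⟩
  let cof : X ⊕ Y → Order.Cofinal (PIso ev ev' x0 y0) :=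
    Sum.elim (cofL hH x0 y0) (cofR hG x0 y0)
  let I := Order.idealOfCofinals p0 cof
  have hp0 : p0 ∈ I := Order.mem_idealOfCofinals p0 cof
  have hl : ∀ x : X, ∃ y : Y, ∃ R ∈ I, (x, y) ∈ R.1 := by
    intro x
    obtain ⟨R, ⟨y, hy⟩, hR⟩ := Order.cofinal_meets_idealOfCofinals p0 cof (Sum.inl x)
    exact ⟨y, R, hR, hy⟩
  have hr : ∀ y : Y, ∃ x : X, ∃ R ∈ I, (x, y) ∈ R.1 := by
    intro y
    obtain ⟨R, ⟨x, hx⟩, hR⟩ := Order.cofinal_meets_idealOfCofinals p0 cof (Sum.inr y)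
    exact ⟨x, R, hR, hx⟩
  choose F hF using hl
  choose G hG' using hr
  -- any two pairs in the ideal are compatible
  have comp : ∀ p q : X × Y, (∃ R ∈ I, p ∈ R.1) → (∃ R ∈ I, q ∈ R.1) →
      ((∀ t, ev p.1 t ≤ ev q.1 t) ↔ (∀ s, ev' p.2 s ≤ ev' q.2 s)) := by
    rintro p q ⟨R, hR, hp⟩ ⟨S, hS, hq⟩
    obtain ⟨T, -, hRT, hST⟩ := I.directed R hR S hS
    exact good_le T.2.2.2 (hRT hp) (hST hq)
  have uniqY : ∀ x y y', (∃ R ∈ I, (x, y) ∈ R.1) → (∃ R ∈ I, (x, y') ∈ R.1) → y = y' := by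
    intro x y y' h1 h2
    refine hY _ _ fun s => le_antisymm ?_ ?_
    · exact (comp (x, y) (x, y') h1 h2).1 (fun _ => le_rfl) s
    · exact (comp (x, y') (x, y) h2 h1).1 (fun _ => le_rfl) s
  have uniqX : ∀ x x' y, (∃ R ∈ I, (x, y) ∈ R.1) → (∃ R ∈ I, (x', y) ∈ R.1) → x = x' := by
    intro x x' y h1 h2
    refine hX _ _ fun s => le_antisymm ?_ ?_
    · exact (comp (x, y) (x', y) h1 h2).2 (fun _ => le_rfl) s
    · exact (comp (x', y) (x, y) h2 h1).2 (fun _ => le_rfl) s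
  refine ⟨⟨F, G, fun x => ?_, fun y => ?_⟩, ?_, ?_⟩
  · exact uniqX _ _ (F x) (hG' (F x)) (hF x)
  · exact uniqY (G y) _ _ (hF (G y)) (hG' y)
  · exact uniqY x0 _ _ (hF x0) ⟨p0, hp0, rfl⟩
  · intro f g
    exact comp (f, F f) (g, F g) (hF f) (hF g)

end Pool.Agent.UniqueAdd
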